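import Mathlib
import Pool.Agent.H916T.Defs

/-!
# Statements of the parts of the project NS (helper180)
-/

set_option autoImplicit false

namespace Pool.Agent.H180.NS

open Finset Filter Topology

/-- **NS-AP.** The natural density of the primes in a finite union of reduced residue classes.

Proof. The prime number theorem for arithmetic progressions is on main:
`Pool.Agent.Helper923.H403.PNT602.pnt_residueClass` (or `Pool.Agent.Cov.PNT.pnt_residueClass`) and
`pi_tendsto`, `theta_div_tendsto`, `psi_div_tendsto` in the same files; for one class a lower bound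
for the number of primes by `gcl N a y = (ψ(y; N, a) - (ψ(y) - θ(y))) / (log y π(y))` which tends to
`1 / φ(N)` is `Pool.Agent.H730R2.AA.gcl_tendsto` (file `H730R2/AA/WdLim.lean`, see there how it is
used). Lower bound for each class, sum over the classes of `R`, and the lower bound for the
complementary classes (all primes not dividing `m` are in one reduced class, finitely many divide
`m`) give the limit. -/
def S_AP : Prop := ∀ (m : ℕ) [NeZero m] (R : Finset (ZMod m)), (∀ r ∈ R, IsUnit r) →
  Tendsto (fun N : ℕ => (Nat.card {l : ℕ // l ≤ N ∧ l.Prime ∧ (l : ZMod m) ∈ R} : ℝ) /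
    (Nat.primeCounting N : ℝ)) atTop (𝓝 ((R.card : ℝ) / (Nat.totient m : ℝ)))

/-- **NS-Slope.** Stickelberger: a product of Gauss sums over a finite field of characteristic `l`
whose absolute value is the expected one also at the primes over `l` (that is, some power of the
product is the expected power of the number of elements of `F`) has the expected slopes.

Proof. Let `F` have `Q = l ^ r` elements, `f` the order of `l` modulo `m`; `f` divides `r` since
`orderOf χ = m` divides `Q - 1`. Stickelberger's theorem is on main: file `Y145/DI/Stick.lean`,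
`exists_wp F (p := l)` gives `w : MulChar F (PadicAlgCl l)` of order `Q - 1` and a primitive additive
character `ψ'`, and `norm_gauss_eq` says for `0 < b < m` that
`‖gaussSum ((w ^ ((Q - 1) / m)) ^ b)⁻¹ ψ'‖ ^ m = ‖l‖ ^ ∑_{s < r} (b * l ^ s) % m`.
Let `T = (w ^ ((Q - 1) / m))⁻¹`, of order `m`, `t` a unit modulo `m`, `y` a generator of the group
of `F`. Then `χ y` is a primitive `m`-th root of unity in `ℂ` and `T y ^ t` is one in `PadicAlgCl l`,
so (irreducibility of the cyclotomic polynomial over `ℚ`, and `PadicAlgCl l` is algebraically closed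
of characteristic zero) there is a ring homomorphism `θ` from the field of the algebraic numbers in
`ℂ` (or from a cyclotomic subfield which contains the values of `χ` and `ψ`) to `PadicAlgCl l` with
`θ (χ y) = T y ^ t`, hence `θ ∘ χ = T ^ t`. The additive character `θ ∘ ψ` is not trivial, so it is
`x ↦ ψ' (c x)` with `c ≠ 0`, and `gaussSum (T ^ (t a)) (θ ∘ ψ) = T (c) ^ (- t a) gaussSum (T ^ (t a)) ψ'`
has the same norm as `gaussSum (T ^ (t a)) ψ'`. Apply `θ` to the equation, take norms and the
`m`-th power: `2 n ∑_a ∑_{s < r} ((t a) l ^ s) % m = r n m |s|`. The inner sum is `r / f` times the sum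
over `s < f` of `((l ^ s t a : ZMod m)).val`; cancel `n` and `r / f`. (For `l = 1` modulo `m` and `F`
the prime field see `Q190/FF/HodgeF.lean`, theorem `core`.) -/
def S_Slope : Prop := ∀ (l m n : ℕ) [Fact l.Prime] [NeZero m], 2 ≤ m → 0 < n →
  ∀ (F : Type) [Field F] [Fintype F] [CharP F l] (χ : MulChar F ℂ) (ψ : AddChar F ℂ),
    orderOf χ = m → ψ ≠ 1 → ∀ s : Multiset (ZMod m), (0 : ZMod m) ∉ s →
    (s.map fun a => gaussSum (χ ^ a.val) ψ).prod ^ (2 * n) =
      (Fintype.card F : ℂ) ^ (n * Multiset.card s) →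
    ∀ t : (ZMod m)ˣ, 2 * ∑ j ∈ range (orderOf (l : ZMod m)),
      (s.map fun a => ((l : ZMod m) ^ j * ((t : ZMod m) * a)).val).sum =
        orderOf (l : ZMod m) * (m * Multiset.card s)

/-- **NS-Par.** The sign of Frobenius.

Proof. Let `Q = l ^ n`, `u = p ^ a`, so `F` has `Q ^ 2` elements. The values of `χ` and `ψ` are in
the ring `AI = integralClosure ℤ ℂ` (see `H916K/Sign.lean`), so work with characters with values in
`AI`; for a prime `r` let `φ_r : AI → k_r` be a ring homomorphism to a field of characteristic `r`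
(`Pool.Agent.H916K.exists_red`).

Step 1. Let `θ` be a character with `θ ^ u = 1`, `θ ≠ 1`. Then `g ^ u = Q ^ u` for `g = gaussSum θ ψ`.
Indeed `x ↦ x ^ Q` is an involution and an automorphism of `F`, so `x ↦ ψ (x ^ Q)` is an additive
character, not trivial, hence equal to `x ↦ ψ (c x)` for some `c ≠ 0`; `θ ^ Q = θ⁻¹` because `u` divides
`Q + 1`. So `gaussSum θ⁻¹ ψ = ∑ θ (x ^ Q) ψ x = ∑ θ y ψ (y ^ Q) = (θ c)⁻¹ g`. Also
`g * gaussSum θ⁻¹ ψ = θ (-1) Q ^ 2 = Q ^ 2` (`u` is odd). So `g ^ 2 = θ c * Q ^ 2`,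
`(g ^ u) ^ 2 = (Q ^ u) ^ 2`, `g ^ u = ± Q ^ u`. Apply `φ_p`: `φ_p (θ x) = 1` for `x ≠ 0` (a `p ^ a`-th
root of unity in characteristic `p`), so `φ_p g = ∑_{x ≠ 0} φ_p (ψ x) = -1`, and `φ_p Q = -1`, `u` is odd,
`p ≠ 2`: the sign is `+`.

Step 2. Apply `φ_q`. For `x ≠ 0` we have `φ_q (χ x) ^ u = 1`. Given `z.1`, choose `e` congruent to
`z.1.val` modulo `u` and to `0` modulo `q ^ b`; then `φ_q (gaussSum (χ ^ z.1.val) ψ) =
φ_q (gaussSum (χ ^ e) ψ)`. If `u` divides `z.1.val` this is `φ_q (gaussSum 1 ψ) = -1`; otherwise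
`θ = χ ^ e` satisfies `θ ^ u = 1`, `θ ≠ 1`, and the `u`-th power is `φ_q (Q) ^ u = 1` by Step 1 and
since `q` divides `Q - 1`.

Step 3. The `u`-th power of the equation, mapped by `φ_q`: `(-1) ^ (count * u) = 1`, the character
values on the right have `u`-th power `1`. As `u` is odd and `q ≠ 2`, the count is even. -/
def S_Par : Prop := ∀ (p q a b l n : ℕ) [Fact l.Prime], p.Prime → q.Prime → p ≠ 2 → q ≠ 2 → p ≠ q →
  0 < a → 0 < b → p ^ a ∣ l ^ n + 1 → q ∣ l ^ n - 1 →
  ∀ (F : Type) [Field F] [Fintype F], Fintype.card F = l ^ (2 * n) →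
  ∀ (χ : MulChar F ℂ) (ψ : AddChar F ℂ), orderOf χ = p ^ a * q ^ b → ψ ≠ 1 →
  ∀ s : Multiset (ZMod (p ^ a * q ^ b) × F), (∀ z ∈ s, z.2 ≠ 0) →
    (s.map fun z => gaussSum (χ ^ z.1.val) ψ).prod =
      (Fintype.card F : ℂ) ^ (Multiset.card s / 2) * (s.map fun z => (χ ^ z.1.val) z.2).prod →
    Even (s.countP fun z => p ^ a ∣ z.1.val)

/-- **NS-Gen.** Existence of residue classes: if `p` is not a square modulo the odd prime `q`, the
unit `h` of `ZMod (q ^ b)` of odd order which generates the subgroup of the elements of odd order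
generates with `p` all units.

Proof. The group of units of `ZMod (q ^ b)` is cyclic, with a generator `g`, of order `2 ^ s * t`,
`t` odd. Let `h = g ^ (2 ^ s)`, of order `t`. Write `p = g ^ e`. If `e` is even then `p` is a square
modulo `q ^ b`, hence modulo `q`, contradiction. So `e` is odd and prime to `2 ^ s`: choose `i`
with `e * i = 1` modulo `2 ^ s`; then `p ^ i * h ^ j = g` for a suitable `j`, modulo the order of
`g`, and every unit is a power of `g`. -/
def S_Gen : Prop := ∀ (p q b : ℕ), p.Prime → q.Prime → p ≠ q → q ≠ 2 → 0 < b →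
  ¬ IsSquare ((p : ℕ) : ZMod q) →
  ∃ h : (ZMod (q ^ b))ˣ, Odd (orderOf h) ∧
    ∀ y : (ZMod (q ^ b))ˣ, ∃ i j : ℕ, (y : ZMod (q ^ b)) = (p : ZMod (q ^ b)) ^ i * (h : ZMod (q ^ b)) ^ j

end Pool.Agent.H180.NS
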